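import Pool.Agent.W345.GK.TF

set_option autoImplicit false

/-!
# GK, part LV: two independent fixed polynomials
-/

open Polynomial Finset

namespace Pool.Agent.W392.GK.LV

open Pool.Agent.W345.GK

variable {F : Type} [Field F]

theorem UU_coeff {q : ℕ} (hq : 0 < q) (f : F[X]) (i : ℕ) :
    (UU q f).coeff i = f.coeff (q * i + (q - 1)) := by
  unfold UU
  rw [finsetSum_coeff]
  simp only [coeff_monomial]
  rw [Finset.sum_ite_eq']
  by_cases h : i ∈ range (f.natDegree + 1)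
  · rw [if_pos h]
  · rw [if_neg h]
    symm
    apply coeff_eq_zero_of_natDegree_lt
    rw [Finset.mem_range, not_lt] at h
    have h1 : i ≤ q * i := Nat.le_mul_of_pos_left i hq
    omega

/-- the operator -/
noncomputable def Ph (q : ℕ) (hq : 0 < q) (R : F[X]) : F[X] →ₗ[F] F[X] where
  toFun h := UU q (h * R)
  map_add' f g := by
    ext i
    rw [coeff_add, UU_coeff hq, UU_coeff hq, UU_coeff hq, add_mul, coeff_add]
  map_smul' a f := by
    ext i
    simp only [RingHom.id_apply]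
    rw [coeff_smul, UU_coeff hq, UU_coeff hq, smul_mul_assoc, coeff_smul]

theorem Ph_coeff (q : ℕ) (hq : 0 < q) (R h : F[X]) (i : ℕ) :
    (Ph q hq R h).coeff i = (h * R).coeff (q * i + (q - 1)) := UU_coeff hq _ _

theorem Ph_deg (q : ℕ) (hq : 0 < q) (hq2 : 2 ≤ q) (R : F[X]) (m : ℕ)
    (hR : R.natDegree = (q - 1) * (m + 1)) (h : F[X]) (s : ℕ) (hh : h.natDegree ≤ m + s) :
    (Ph q hq R h).natDegree ≤ m + (s - 1) := by
  rw [natDegree_le_iff_coeff_eq_zero]
  intro i hi
  rw [Ph_coeff]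
  apply coeff_eq_zero_of_natDegree_lt
  refine lt_of_le_of_lt natDegree_mul_le ?_
  rw [hR]
  obtain ⟨p, rfl⟩ : ∃ p, q = p + 2 := ⟨q - 2, by omega⟩
  have e1 : p + 2 - 1 = p + 1 := by omega
  rw [e1]
  rcases Nat.eq_zero_or_pos s with hs | hs
  · subst hs
    simp only [add_zero, Nat.zero_sub] at hh hi
    obtain ⟨t, rfl⟩ : ∃ t, i = m + 1 + t := ⟨i - (m + 1), by omega⟩
    nlinarith
  · obtain ⟨u, rfl⟩ : ∃ u, s = u + 1 := ⟨s - 1, by omega⟩
    have e2 : u + 1 - 1 = u := by omega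
    rw [e2] at hi
    obtain ⟨t, rfl⟩ : ∃ t, i = m + u + 1 + t := ⟨i - (m + u + 1), by omega⟩
    nlinarith

theorem Ph_pow_deg (q : ℕ) (hq : 0 < q) (hq2 : 2 ≤ q) (R : F[X]) (m : ℕ)
    (hR : R.natDegree = (q - 1) * (m + 1)) (r : ℕ) (h : F[X]) (s : ℕ)
    (hh : h.natDegree ≤ m + s) : (((Ph q hq R) ^ r) h).natDegree ≤ m + (s - r) := by
  induction r with
  | zero => simpa using hh
  | succ r ih =>
    rw [pow_succ']
    have h1 : (Ph q hq R * Ph q hq R ^ r) h = Ph q hq R ((Ph q hq R ^ r) h) := rfl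
    rw [h1]
    have h2 := Ph_deg q hq hq2 R m hR _ _ ih
    have e : s - (r + 1) = s - r - 1 := by omega
    rw [e]
    exact h2

theorem Ph_top (q : ℕ) (hq : 0 < q) (R : F[X]) (hRm : R.Monic) (m : ℕ)
    (hR : R.natDegree = (q - 1) * (m + 1)) (h : F[X]) (hh : h.natDegree ≤ m) :
    (Ph q hq R h).coeff m = h.coeff m := by
  rw [Ph_coeff]
  have e : q * m + (q - 1) = m + (q - 1) * (m + 1) := by
    obtain ⟨p, rfl⟩ : ∃ p, q = p + 1 := ⟨q - 1, by omega⟩
    simp only [Nat.add_sub_cancel]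
    ring
  rw [e, coeff_mul_add_eq_of_natDegree_le hh hR.le]
  have h1 : R.coeff ((q - 1) * (m + 1)) = 1 := by
    rw [← hR]; exact hRm.coeff_natDegree
  rw [h1, mul_one]

theorem fixed_deg (q : ℕ) (hq : 0 < q) (hq2 : 2 ≤ q) (R : F[X]) (m : ℕ)
    (hR : R.natDegree = (q - 1) * (m + 1)) (h : F[X]) (hfix : Ph q hq R h = h) :
    h.natDegree ≤ m := by
  by_contra hcon
  have h1 := Ph_deg q hq hq2 R m hR h (h.natDegree - m) (by omega)
  rw [hfix] at h1
  omega

/-- the coefficient vector -/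
def cv (M : ℕ) (h : F[X]) : Fin (M + 1) → F := fun j => h.coeff j

theorem eq_sum (M : ℕ) (h : F[X]) (hh : h.natDegree ≤ M) :
    h = ∑ j : Fin (M + 1), h.coeff j • (X : F[X]) ^ (j : ℕ) := by
  have h1 := h.as_sum_range' (M + 1) (by omega)
  conv_lhs => rw [h1]
  rw [← Fin.sum_univ_eq_sum_range (fun i => monomial i (h.coeff i)) (M + 1)]
  apply Finset.sum_congr rfl
  intro j _
  rw [← C_mul_X_pow_eq_monomial, smul_eq_C_mul]

theorem AA_eq (q M : ℕ) (R : F[X]) (i j : Fin (M + 1)) :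
    AA q M R i j = (X ^ (j : ℕ) * R).coeff (q * i + (q - 1)) := by
  unfold AA
  rw [coeff_X_pow_mul']

theorem AA_mulVec (q M : ℕ) (R h : F[X]) (hh : h.natDegree ≤ M) (i : Fin (M + 1)) :
    (AA q M R).mulVec (cv M h) i = (h * R).coeff (q * i + (q - 1)) := by
  conv_rhs => rw [eq_sum M h hh]
  rw [Finset.sum_mul, finsetSum_coeff]
  show ∑ j, AA q M R i j * cv M h j = _
  apply Finset.sum_congr rfl
  intro j _
  rw [AA_eq, smul_mul_assoc, coeff_smul, smul_eq_mul, mul_comm]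
  rfl

/-- the polynomial of a vector -/
noncomputable def vp (n : ℕ) : (Fin n → F) →ₗ[F] F[X] :=
  ∑ j : Fin n, (LinearMap.proj j : (Fin n → F) →ₗ[F] F).smulRight ((X : F[X]) ^ (j : ℕ))

theorem vp_apply (n : ℕ) (u : Fin n → F) : vp n u = ∑ j : Fin n, u j • (X : F[X]) ^ (j : ℕ) := by
  unfold vp
  rw [LinearMap.sum_apply]
  rfl

theorem vp_coeff (n : ℕ) (u : Fin n → F) (i : ℕ) :
    (vp n u).coeff i = if h : i < n then u ⟨i, h⟩ else 0 := by
  rw [vp_apply, finsetSum_coeff]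
  simp only [coeff_smul, coeff_X_pow, smul_eq_mul, mul_ite, mul_one, mul_zero]
  by_cases h : i < n
  · rw [dif_pos h, Finset.sum_eq_single ⟨i, h⟩]
    · simp
    · intro b _ hb
      rw [if_neg]
      intro h1
      exact hb (Fin.ext h1.symm)
    · intro h1
      exact absurd (Finset.mem_univ _) h1
  · rw [dif_neg h]
    apply Finset.sum_eq_zero
    intro j _
    rw [if_neg]
    intro h1
    exact h (h1 ▸ j.2)

theorem vp_deg (M : ℕ) (u : Fin (M + 1) → F) : (vp (M + 1) u).natDegree ≤ M := by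
  rw [natDegree_le_iff_coeff_eq_zero]
  intro i hi
  rw [vp_coeff, dif_neg (by omega)]

theorem cv_vp (M : ℕ) (u : Fin (M + 1) → F) : cv M (vp (M + 1) u) = u := by
  funext j
  unfold cv
  rw [vp_coeff, dif_pos j.2]

theorem exists_fixed (q : ℕ) (hq : 0 < q) (hq2 : 2 ≤ q) (R : F[X]) (hRm : R.Monic) (m : ℕ)
    (hR : R.natDegree = (q - 1) * (m + 1)) : ∃ h : F[X], h ≠ 0 ∧ Ph q hq R h = h := by
  let T : (Fin (m + 1) → F) →ₗ[F] (Fin m → F) := LinearMap.pi fun i : Fin m =>
    (lcoeff F (i : ℕ)) ∘ₗ (LinearMap.id - Ph q hq R) ∘ₗ vp (m + 1)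
  have hT : ∀ u i, T u i = (vp (m + 1) u - Ph q hq R (vp (m + 1) u)).coeff i := fun u i => rfl
  have hker : LinearMap.ker T ≠ ⊥ := by
    apply LinearMap.ker_ne_bot_of_finrank_lt
    rw [Module.finrank_fin_fun, Module.finrank_fin_fun]
    omega
  obtain ⟨u, hu, hu0⟩ := Submodule.exists_mem_ne_zero_of_ne_bot hker
  rw [LinearMap.mem_ker] at hu
  refine ⟨vp (m + 1) u, ?_, ?_⟩
  · intro h
    apply hu0
    rw [← cv_vp m u, h]
    funext j
    unfold cv
    simp
  · ext i
    rcases lt_trichotomy i m with hi | hi | hi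
    · have h1 := congrFun hu ⟨i, hi⟩
      rw [hT, coeff_sub] at h1
      have h2 : (vp (m + 1) u).coeff i - (Ph q hq R (vp (m + 1) u)).coeff i = 0 := h1
      exact (sub_eq_zero.mp h2).symm
    · rw [hi]
      exact Ph_top q hq R hRm m hR _ (vp_deg m u)
    · have h1 := Ph_deg q hq hq2 R m hR _ 0 (by simpa using vp_deg m u)
      rw [coeff_eq_zero_of_natDegree_lt (lt_of_le_of_lt h1 (by omega)),
        coeff_eq_zero_of_natDegree_lt (lt_of_le_of_lt (vp_deg m u) hi)]

/-- the invariant functional -/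
noncomputable def lam (q : ℕ) (hq : 0 < q) (R : F[X]) (m M : ℕ) : F[X] →ₗ[F] F :=
  (lcoeff F m) ∘ₗ ((Ph q hq R) ^ M)

theorem lam_apply (q : ℕ) (hq : 0 < q) (R : F[X]) (m M : ℕ) (h : F[X]) :
    lam q hq R m M h = (((Ph q hq R) ^ M) h).coeff m := rfl

theorem lam_inv (q : ℕ) (hq : 0 < q) (hq2 : 2 ≤ q) (R : F[X]) (hRm : R.Monic) (m M : ℕ)
    (hR : R.natDegree = (q - 1) * (m + 1)) (hmM : m ≤ M) (h : F[X]) (hh : h.natDegree ≤ M) :
    lam q hq R m M (Ph q hq R h) = lam q hq R m M h := by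
  rw [lam_apply, lam_apply]
  have h1 : (Ph q hq R ^ M) (Ph q hq R h) = Ph q hq R ((Ph q hq R ^ M) h) := by
    have h2 : (Ph q hq R ^ M * Ph q hq R) h = (Ph q hq R * Ph q hq R ^ M) h := by
      rw [← pow_succ, ← pow_succ']
    exact h2
  rw [h1]
  apply Ph_top q hq R hRm m hR
  have h3 := Ph_pow_deg q hq hq2 R m hR M h (M - m) (by omega)
  omega

theorem lam_top (q : ℕ) (hq : 0 < q) (hq2 : 2 ≤ q) (R : F[X]) (hRm : R.Monic) (m : ℕ)
    (hR : R.natDegree = (q - 1) * (m + 1)) (h : F[X]) (hh : h.natDegree ≤ m) (M : ℕ) :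
    lam q hq R m M h = h.coeff m := by
  induction M with
  | zero => rw [lam_apply]; simp
  | succ M ih =>
    rw [lam_apply] at ih ⊢
    rw [pow_succ']
    have h1 : (Ph q hq R * Ph q hq R ^ M) h = Ph q hq R ((Ph q hq R ^ M) h) := rfl
    rw [h1, Ph_top q hq R hRm m hR _ ?_, ih]
    have h3 := Ph_pow_deg q hq hq2 R m hR M h 0 (by omega)
    omega

theorem lam_sum (q : ℕ) (hq : 0 < q) (R : F[X]) (m M : ℕ) (h : F[X]) (hh : h.natDegree ≤ M) :
    lam q hq R m M h = ∑ j : Fin (M + 1), h.coeff j * lam q hq R m M (X ^ (j : ℕ)) := by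
  conv_lhs => rw [eq_sum M h hh]
  rw [map_sum]
  apply Finset.sum_congr rfl
  intro j _
  rw [map_smul, smul_eq_mul]

theorem lv : S_TFD → S_LA → S_LV := by
  intro hTFD hLA k F _ _ _ _ R m hRm hR hsum
  have hq2 : 2 ≤ Fintype.card k := Fintype.one_lt_card
  have hq : 0 < Fintype.card k := by omega
  set q := Fintype.card k with hqdef
  obtain ⟨h0, hne, hfix⟩ := exists_fixed q hq hq2 R hRm m hR
  have hdeg := fixed_deg q hq hq2 R m hR h0 hfix
  by_contra hcon
  have hall : ∀ h, Ph q hq R h = h → ∃ a : F, h = a • h0 := by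
    intro h hh
    by_contra hna
    push Not at hna
    apply hcon
    refine ⟨h0, h, hdeg, fixed_deg q hq hq2 R m hR h hh, hfix, hh, ?_⟩
    rw [LinearIndependent.pair_iff' hne]
    intro a ha
    exact hna a ha.symm
  obtain ⟨M0, hM0⟩ := hsum (m - h0.natDegree) (Nat.sub_le _ _)
  set l := m - h0.natDegree with hl
  set M := max M0 (2 * m + 1) with hM
  have hMm : 2 * m + 1 ≤ M := le_max_right _ _
  have hMM0 : M0 ≤ M := le_max_left _ _
  have h1 := hTFD k F R M l (by
    rw [hR]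
    obtain ⟨p, hp⟩ : ∃ p, q = p + 2 := ⟨q - 2, by omega⟩
    rw [← hqdef, hp]
    have e1 : p + 2 - 1 = p + 1 := by omega
    rw [e1]
    have h2 : l ≤ m := Nat.sub_le _ _
    nlinarith)
  rw [hM0 (M + 2) (by omega)] at h1
  rw [← hqdef] at h1
  have hcvfix : ∀ h : F[X], h.natDegree ≤ M →
      (1 - AA q M R).mulVec (cv M h) = cv M (h - Ph q hq R h) := by
    intro h hh
    rw [Matrix.sub_mulVec, Matrix.one_mulVec]
    funext i
    rw [Pi.sub_apply, AA_mulVec q M R h hh i]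
    unfold cv
    rw [coeff_sub, Ph_coeff]
  refine hLA F (M + 1) (1 - AA q M R) (AA q M (R * X ^ l)) (cv M h0)
    (fun j => lam q hq R m M (X ^ (j : ℕ))) ?_ ?_ ?_ ?_ ?_ ?_
  · intro u hu
    have h2 := hcvfix (vp (M + 1) u) (vp_deg M u)
    rw [cv_vp, hu] at h2
    have h3 : Ph q hq R (vp (M + 1) u) = vp (M + 1) u := by
      ext i
      by_cases hi : i < M + 1
      · have h4 := congrFun h2 ⟨i, hi⟩
        have h5 : (0 : F) = (vp (M + 1) u - Ph q hq R (vp (M + 1) u)).coeff i := h4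
        rw [coeff_sub] at h5
        exact (sub_eq_zero.mp h5.symm).symm
      · have h4 := Ph_deg q hq hq2 R m hR (vp (M + 1) u) (M - m) (by
          have := vp_deg M u
          omega)
        rw [coeff_eq_zero_of_natDegree_lt (lt_of_le_of_lt h4 (by omega)),
          coeff_eq_zero_of_natDegree_lt (lt_of_le_of_lt (vp_deg M u) (by omega))]
    obtain ⟨a, ha⟩ := hall _ h3
    refine ⟨a, ?_⟩
    rw [← cv_vp M u, ha]
    funext j
    unfold cv
    rw [coeff_smul]
    rfl
  · rw [hcvfix h0 (by omega), hfix, sub_self]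
    funext j
    unfold cv
    simp
  · intro h
    apply hne
    rw [eq_sum M h0 (by omega)]
    apply Finset.sum_eq_zero
    intro j _
    have h2 := congrFun h j
    have h3 : h0.coeff j = 0 := h2
    rw [h3, zero_smul]
  · rw [Matrix.vecMul_sub, Matrix.vecMul_one]
    funext j
    rw [Pi.sub_apply, Pi.zero_apply, sub_eq_zero]
    have hXj : ((X : F[X]) ^ (j : ℕ)).natDegree ≤ M := by
      rw [natDegree_X_pow]; omega
    rw [← lam_inv q hq hq2 R hRm m M hR (by omega) _ hXj, lam_sum q hq R m M _ (by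
      have h4 := Ph_deg q hq hq2 R m hR ((X : F[X]) ^ (j : ℕ)) (M - m) (by omega)
      omega)]
    show _ = ∑ i : Fin (M + 1), lam q hq R m M (X ^ (i : ℕ)) * AA q M R i j
    apply Finset.sum_congr rfl
    intro i _
    rw [AA_eq, Ph_coeff, mul_comm]
  · have hXh : (X ^ l * h0).natDegree ≤ m := by
      refine le_trans natDegree_mul_le ?_
      rw [natDegree_X_pow]
      omega
    have h5 : lam q hq R m M (Ph q hq R (X ^ l * h0)) ≠ 0 := by
      rw [lam_inv q hq hq2 R hRm m M hR (by omega) _ (by omega),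
        lam_top q hq hq2 R hRm m hR _ hXh M]
      have e : m = h0.natDegree + l := by omega
      rw [mul_comm, e, coeff_mul_X_pow]
      exact leadingCoeff_ne_zero.mpr hne
    have h6 : dotProduct (fun j : Fin (M + 1) => lam q hq R m M (X ^ (j : ℕ)))
        ((AA q M (R * X ^ l)).mulVec (cv M h0)) = lam q hq R m M (Ph q hq R (X ^ l * h0)) := by
      have h7 := Ph_deg q hq hq2 R m hR (X ^ l * h0) (M - m) (by omega)
      rw [lam_sum q hq R m M _ (by omega)]
      show ∑ i : Fin (M + 1), lam q hq R m M (X ^ (i : ℕ)) *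
        (AA q M (R * X ^ l)).mulVec (cv M h0) i = _
      apply Finset.sum_congr rfl
      intro i _
      rw [AA_mulVec q M (R * X ^ l) h0 (by omega) i, Ph_coeff, mul_comm]
      congr 2
      ring
    rw [h6]
    exact h5
  · have e : (1 - AA q M R).map (C : F → F[X]) = 1 - (AA q M R).map C := by
      rw [Matrix.map_sub _ (fun a b => C_sub), Matrix.map_one _ C_0 C_1]
    rw [e]
    exact h1.symm

end Pool.Agent.W392.GK.LV
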